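import Pool.Agent.Helper78_E.Stmts2
import Pool.Agent.Helper72_E.Lag
import Pool.Agent.Helper85_E.Lapu
import Pool.Agent.Helper13_E.Resid

/-!
# MP_7d2497_an, module FACT: the basic factors
-/

namespace Pool.Agent.H78E.H34

open MeasureTheory Filter Topology Complex

noncomputable section

/-! ### Power series in a Banach algebra -/

section General

variable {R : Type*} [NormedRing R]

theorem op_mul_le_of {S T : R} {a b : ℝ} (hS : ‖S‖ ≤ a) (hT : ‖T‖ ≤ b) :
    ‖S * T‖ ≤ a * b :=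
  (norm_mul_le S T).trans (mul_le_mul hS hT (norm_nonneg _) ((norm_nonneg _).trans hS))

theorem op_pow (h1 : ‖(1 : R)‖ ≤ 1) {S : R} (hS : ‖S‖ ≤ 1) (n : ℕ) : ‖S ^ n‖ ≤ 1 := by
  induction n with
  | zero =>
    rw [pow_zero]
    exact h1
  | succ n ih =>
    rw [pow_succ]
    exact (op_mul_le_of ih hS).trans (by norm_num)

theorem op_pow_sub (h1 : ‖(1 : R)‖ ≤ 1) {S T : R} {t : ℝ} (hS : ‖S‖ ≤ 1) (hT : ‖T‖ ≤ 1)
    (h : ‖S - T‖ ≤ t) (n : ℕ) : ‖S ^ n - T ^ n‖ ≤ min 2 (n * t) := by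
  refine le_min ?_ ?_
  · exact (norm_sub_le _ _).trans (by linarith [op_pow h1 hS n, op_pow h1 hT n])
  · induction n with
    | zero => simp
    | succ n ih =>
      have e : S ^ (n + 1) - T ^ (n + 1) = S ^ n * (S - T) + (S ^ n - T ^ n) * T := by
        rw [pow_succ, pow_succ, mul_sub, sub_mul]
        abel
      rw [e]
      refine (norm_add_le _ _).trans ?_
      have h2 := op_mul_le_of (op_pow h1 hS n) h
      have h3 := op_mul_le_of ih hT
      push_cast
      linarith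

theorem op_pow_mul_sub (h1 : ‖(1 : R)‖ ≤ 1) {S T : R} {t : ℝ} (hS : ‖S‖ ≤ 1) (hT : ‖T‖ ≤ 1)
    (h : ‖S * T - T‖ ≤ t) (n : ℕ) : ‖S ^ n * T - T‖ ≤ min 2 (n * t) := by
  refine le_min ?_ ?_
  · have h2 := op_mul_le_of (op_pow h1 hS n) hT
    exact (norm_sub_le _ _).trans (by linarith)
  · induction n with
    | zero => simp
    | succ n ih =>
      have e : S ^ (n + 1) * T - T = S ^ n * (S * T - T) + (S ^ n * T - T) := by
        rw [pow_succ, mul_sub, mul_assoc]
        abel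
      rw [e]
      refine (norm_add_le _ _).trans ?_
      have h2 := op_mul_le_of (op_pow h1 hS n) h
      push_cast
      linarith

theorem sq_identity (A V : R) : A - A * ((1 - V) * (1 - V)) = (A * V) * (1 + (1 - V)) := by
  have e : (1 - V) * (1 - V) = 1 - V * (1 + (1 - V)) := by noncomm_ring
  rw [e, mul_sub, mul_one, sub_sub_cancel, mul_assoc]

theorem norm_two_sub_le (h1 : ‖(1 : R)‖ ≤ 1) {V : R} (hV : ‖V‖ ≤ 1) : ‖1 + (1 - V)‖ ≤ 3 := by
  refine (norm_add_le _ _).trans ?_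
  have := norm_sub_le 1 V
  linarith

variable [NormedAlgebra ℂ R] [CompleteSpace R]

/-- power series -/
def F (b : ℕ → ℂ) (S : R) : R := ∑' n, b n • S ^ n

theorem F_summable (h1 : ‖(1 : R)‖ ≤ 1) {b : ℕ → ℂ} (hb : Summable fun n => ‖b n‖) {S : R}
    (hS : ‖S‖ ≤ 1) : Summable fun n => b n • S ^ n := by
  refine Summable.of_norm_bounded hb fun n => ?_
  rw [norm_smul]
  calc ‖b n‖ * ‖S ^ n‖ ≤ ‖b n‖ * 1 := by
        have := op_pow h1 hS n
        gcongr
    _ = ‖b n‖ := mul_one _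

theorem F_comm (h1 : ‖(1 : R)‖ ≤ 1) {b : ℕ → ℂ} (hb : Summable fun n => ‖b n‖) {S T : R}
    (hS : ‖S‖ ≤ 1) (hST : S * T = T * S) : F b S * T = T * F b S := by
  unfold F
  rw [← (F_summable h1 hb hS).tsum_mul_right, ← (F_summable h1 hb hS).tsum_mul_left]
  congr 1
  funext n
  rw [smul_mul_assoc, mul_smul_comm]
  congr 1
  exact (Commute.pow_left (show Commute S T from hST) n).eq

theorem F_map (h1 : ‖(1 : R)‖ ≤ 1) {b : ℕ → ℂ} (hb : Summable fun n => ‖b n‖) {S : R}
    (hS : ‖S‖ ≤ 1) (L : R →L[ℂ] ℂ) {v : ℂ} (h : ∀ n : ℕ, L (S ^ n) = v ^ n * L 1) :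
    L (F b S) = (∑' n, b n * v ^ n) * L 1 := by
  unfold F
  rw [L.map_tsum (F_summable h1 hb hS), ← tsum_mul_right]
  congr 1
  funext n
  rw [map_smul, h, smul_eq_mul]
  ring

/-- the modulus of continuity -/
def Th (b : ℕ → ℂ) (t : ℝ) : ℝ := ∑' n : ℕ, ‖b n‖ * min 2 (n * t)

theorem Th_summable {b : ℕ → ℂ} (hb : Summable fun n => ‖b n‖) {t : ℝ} (ht : 0 ≤ t) :
    Summable fun n : ℕ => ‖b n‖ * min 2 (n * t) := by
  refine Summable.of_nonneg_of_le (fun n => by positivity) (fun n => ?_) (hb.mul_right 2)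
  exact mul_le_mul_of_nonneg_left (min_le_left _ _) (norm_nonneg _)

theorem Th_small {b : ℕ → ℂ} (hb : Summable fun n => ‖b n‖) {η : ℝ} (hη : 0 < η) :
    ∃ t : ℝ, 0 < t ∧ Th b t ≤ η := by
  have h : Tendsto (fun t : ℝ => ∑' n : ℕ, ‖b n‖ * min 2 (n * t)) (𝓝[>] 0)
      (𝓝 (∑' n : ℕ, ‖b n‖ * min 2 (n * (0 : ℝ)))) := by
    refine tendsto_tsum_of_dominated_convergence (bound := fun n => ‖b n‖ * 2) (hb.mul_right 2)
      (fun n => ?_) ?_
    · have : Continuous fun t : ℝ => ‖b n‖ * min 2 (n * t) := by fun_prop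
      exact (this.tendsto 0).mono_left nhdsWithin_le_nhds
    · filter_upwards [self_mem_nhdsWithin] with t ht n
      have ht' : (0 : ℝ) < t := ht
      rw [Real.norm_of_nonneg (by positivity)]
      exact mul_le_mul_of_nonneg_left (min_le_left _ _) (norm_nonneg _)
  have h0 : (∑' n : ℕ, ‖b n‖ * min 2 (n * (0 : ℝ))) = 0 := by simp
  rw [h0] at h
  obtain ⟨t, h1, h2⟩ := ((h.eventually (ge_mem_nhds hη)).and self_mem_nhdsWithin).exists
  exact ⟨t, h2, h1⟩

theorem F_close (h1 : ‖(1 : R)‖ ≤ 1) {b : ℕ → ℂ} (hb : Summable fun n => ‖b n‖) {S T : R}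
    (hS : ‖S‖ ≤ 1) (hT : ‖T‖ ≤ 1) {t : ℝ} (h : ‖S - T‖ ≤ t) : ‖F b S - F b T‖ ≤ Th b t := by
  have ht : 0 ≤ t := (norm_nonneg _).trans h
  unfold F Th
  rw [← (F_summable h1 hb hS).tsum_sub (F_summable h1 hb hT)]
  refine tsum_of_norm_bounded (Th_summable hb ht).hasSum fun n => ?_
  rw [← smul_sub, norm_smul]
  exact mul_le_mul_of_nonneg_left (op_pow_sub h1 hS hT h n) (norm_nonneg _)

theorem F_mul (h1 : ‖(1 : R)‖ ≤ 1) {b : ℕ → ℂ} (hb : Summable fun n => ‖b n‖)
    (hb0 : ∑' n, b n = 0) {S T : R} (hS : ‖S‖ ≤ 1) (hT : ‖T‖ ≤ 1) {t : ℝ}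
    (h : ‖S * T - T‖ ≤ t) : ‖F b S * T‖ ≤ Th b t := by
  have ht : 0 ≤ t := (norm_nonneg _).trans h
  have h2 := F_summable h1 hb hS
  have hbs : Summable b := hb.of_norm
  have e : F b S * T = ∑' n, b n • (S ^ n * T - T) := by
    have h3 : Summable fun n => b n • (S ^ n * T) := by
      have := h2.mul_right T
      refine this.congr fun n => ?_
      rw [smul_mul_assoc]
    have h4 : Summable fun n => b n • T := hbs.smul_const T
    have h5 : ∑' n, b n • (S ^ n * T - T) = ∑' n, b n • (S ^ n * T) - ∑' n, b n • T := by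
      rw [← h3.tsum_sub h4]
      congr 1
      funext n
      rw [smul_sub]
    rw [h5, hbs.tsum_smul_const, hb0, zero_smul, sub_zero]
    unfold F
    rw [← h2.tsum_mul_right]
    congr 1
    funext n
    rw [smul_mul_assoc]
  rw [e]
  unfold Th
  refine tsum_of_norm_bounded (Th_summable hb ht).hasSum fun n => ?_
  rw [norm_smul]
  exact mul_le_mul_of_nonneg_left (op_pow_mul_sub h1 hS hT h n) (norm_nonneg _)

omit [CompleteSpace R] in
theorem norm_smul_sub_le {S T : R} (hS : ‖S‖ ≤ 1) (hT : ‖T‖ ≤ 1) (c : ℂ) :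
    ‖c • (S - T)‖ ≤ ‖c‖ * 2 := by
  rw [norm_smul]
  have := norm_sub_le S T
  exact mul_le_mul_of_nonneg_left (by linarith) (norm_nonneg _)

omit [CompleteSpace R] in
theorem norm_smul_le_one {S : R} {e : ℝ} (he : 0 < e) (hS : ‖S‖ ≤ 1 / e) :
    ‖(e : ℂ) • S‖ ≤ 1 := by
  rw [norm_smul, Complex.norm_real, Real.norm_of_nonneg he.le]
  calc e * ‖S‖ ≤ e * (1 / e) := by gcongr
    _ = 1 := by field_simp

end General

/-- operators -/
abbrev Op : Type := Y →L[ℂ] Y

theorem op_one : ‖(1 : Op)‖ ≤ 1 := ContinuousLinearMap.norm_id_le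

theorem chi_pow {z v : ℂ} {S : Op} (h : ∀ f, chi z (S f) = v * chi z f) (n : ℕ) (f : Y) :
    chi z ((S ^ n) f) = v ^ n * chi z f := by
  induction n generalizing f with
  | zero => simp
  | succ n ih =>
    rw [pow_succ, mul_apply_eq_comp, ih, h]
    ring

theorem F_chi {b : ℕ → ℂ} (hb : Summable fun n => ‖b n‖) {S : Op} (hS : ‖S‖ ≤ 1) {z v : ℂ}
    (h : ∀ f, chi z (S f) = v * chi z f) (f : Y) :
    chi z (F b S f) = (∑' n, b n * v ^ n) * chi z f := by
  have h2 := F_map (R := Op) op_one hb hS ((chi z).comp (ContinuousLinearMap.apply ℂ Y f))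
    (v := v) (fun n => chi_pow h n f)
  exact h2

/-! ### The basic contractions -/

/-- the operator `V = e E_{e - i x}` -/
def VV (x e : ℝ) : Op := (e : ℂ) • YS.En ((e : ℂ) - Complex.I * (x : ℂ))

theorem re_par (x e : ℝ) : ((e : ℂ) - Complex.I * (x : ℂ)).re = e := by simp

theorem VV_norm (x : ℝ) {e : ℝ} (he : 0 < e) : ‖VV x e‖ ≤ 1 := by
  have h := YS.En_norm (a := (e : ℂ) - Complex.I * (x : ℂ)) (by rw [re_par]; exact he)
  rw [re_par] at h
  exact norm_smul_le_one (R := Op) he h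

theorem YT_comm {s t : ℝ} (hs : 0 ≤ s) (ht : 0 ≤ t) (f : Y) : YT s (YT t f) = YT t (YT s f) := by
  have h1 := YS.add s t hs ht f
  have h2 := YS.add t s ht hs f
  rw [YS_T] at h1 h2
  rw [← h1, ← h2, add_comm]

theorem En_YT (a : ℂ) {s : ℝ} (hs : 0 ≤ s) (f : Y) : YS.En a (YT s f) = YT s (YS.En a f) :=
  (YS.pi_commute YS (YT s) (fun _ ht x => YT_comm hs ht x) _ f).symm

theorem VV_YT (x e : ℝ) {s : ℝ} (hs : 0 ≤ s) : VV x e * YT s = YT s * VV x e := by
  ext1 f
  rw [mul_apply_eq_comp, mul_apply_eq_comp]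
  unfold VV
  rw [smul_apply, smul_apply, map_smul, En_YT _ hs]

theorem chi_En {z a : ℂ} (hz : z.im ≤ 0) (ha : 0 < a.re) (f : Y) :
    chi z (YS.En a f) = 1 / (a + Complex.I * z) * chi z f := by
  rw [YS.En_apply ha]
  have h0 := ContinuousLinearMap.integral_comp_comm (chi z) (YS.cont_mul (integrable_exp ha) f)
  refine h0.symm.trans ?_
  have h1 : ∀ s ∈ Set.Ioi (0 : ℝ), chi z (Complex.exp (-(a * (s : ℂ))) • YS.T s f) =
      Complex.exp (-((a + Complex.I * z) * (s : ℂ))) * chi z f := by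
    intro s hs
    rw [map_smul, YS_T, chi_YT hz (le_of_lt hs), smul_eq_mul, ← mul_assoc, ← Complex.exp_add]
    congr 2
    ring
  rw [setIntegral_congr_fun measurableSet_Ioi h1, integral_mul_const, integral_exp_im]
  simp only [Complex.add_re, Complex.mul_re, Complex.I_re, Complex.I_im, zero_mul, one_mul]
  linarith

theorem chi_VV {z : ℂ} (hz : z.im ≤ 0) (x : ℝ) {e : ℝ} (he : 0 < e) (f : Y) :
    chi z (VV x e f) = (e : ℂ) / ((e : ℂ) + Complex.I * (z - x)) * chi z f := by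
  unfold VV
  rw [smul_apply, map_smul, chi_En hz (by rw [re_par]; exact he), smul_eq_mul, ← mul_assoc,
    mul_one_div]
  congr 2
  ring

theorem add_ne {z : ℂ} (hz : z.im ≤ 0) (x : ℝ) {e : ℝ} (he : 0 < e) :
    (e : ℂ) + Complex.I * (z - x) ≠ 0 := by
  intro h
  have := congrArg Complex.re h
  simp at this
  linarith

theorem norm_v_le {z : ℂ} (hz : z.im ≤ 0) (x : ℝ) {e : ℝ} (he : 0 < e) :
    ‖(e : ℂ) / ((e : ℂ) + Complex.I * (z - x))‖ ≤ 1 := by
  rw [norm_div, Complex.norm_real, Real.norm_of_nonneg he.le,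
    div_le_one (norm_pos_iff.2 (add_ne hz x he))]
  refine le_trans ?_ (Complex.re_le_norm _)
  simp
  linarith

theorem resid_VV (x x' : ℝ) {e e' : ℝ} (he : 0 < e) (he' : 0 < e') (f : Y) :
    YS.En ((e : ℂ) - Complex.I * (x : ℂ)) f - YS.En ((e' : ℂ) - Complex.I * (x' : ℂ)) f =
      (((e' : ℂ) - Complex.I * (x' : ℂ)) - ((e : ℂ) - Complex.I * (x : ℂ))) •
      YS.En ((e : ℂ) - Complex.I * (x : ℂ)) (YS.En ((e' : ℂ) - Complex.I * (x' : ℂ)) f) :=
  H13.resid Y YS _ _ (by rw [re_par]; exact he) (by rw [re_par]; exact he') f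

theorem VV_mul (x : ℝ) {e e' : ℝ} (he : 0 < e) (he' : 0 < e') (hlt : e' ≤ e / 2) :
    ‖VV x e * VV x e' - VV x e'‖ ≤ 4 * e' / e := by
  have hne : (e' : ℂ) - e ≠ 0 := by
    intro h
    have h2 : ((e' - e : ℝ) : ℂ) = 0 := by push_cast; exact h
    have h3 : e' - e = 0 := by exact_mod_cast h2
    linarith
  have key : VV x e * VV x e' - VV x e' = ((e' : ℂ) / (e' - e)) • (VV x e - VV x e') := by
    ext1 f
    have h := resid_VV x x he he' f
    rw [sub_sub_sub_cancel_right] at h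
    unfold VV
    simp only [sub_apply, mul_apply_eq_comp, smul_apply, map_smul, smul_smul, smul_sub]
    have h2 : YS.En ((e : ℂ) - Complex.I * (x : ℂ)) (YS.En ((e' : ℂ) - Complex.I * (x : ℂ)) f) =
        (1 / ((e' : ℂ) - e)) • (YS.En ((e : ℂ) - Complex.I * (x : ℂ)) f -
          YS.En ((e' : ℂ) - Complex.I * (x : ℂ)) f) := by
      rw [h, smul_smul, one_div, inv_mul_cancel₀ hne, one_smul]
    rw [h2]
    set A := YS.En ((e : ℂ) - Complex.I * (x : ℂ)) f
    set B := YS.En ((e' : ℂ) - Complex.I * (x : ℂ)) f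
    have e1 : ∀ c d : ℂ, c * (1 / ((e' : ℂ) - e)) = d → (c) • ((1 / ((e' : ℂ) - e)) • (A - B)) =
        d • (A - B) := fun c d h => by rw [smul_smul, h]
    rw [smul_smul, smul_sub, sub_sub, ← add_smul]
    congr 2
    · field_simp
    · field_simp
      ring
  rw [key]
  refine (norm_smul_sub_le (R := Op) (VV_norm x he) (VV_norm x he') _).trans ?_
  have h1 : ‖(e' : ℂ) / (e' - e)‖ ≤ 2 * e' / e := by
    have h2 : (e' : ℂ) / (e' - e) = ((e' / (e' - e) : ℝ) : ℂ) := by push_cast; rfl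
    rw [h2, Complex.norm_real, norm_div, Real.norm_of_nonneg he'.le, Real.norm_eq_abs,
      abs_of_nonpos (by linarith), div_le_div_iff₀ (by linarith) he]
    nlinarith
  calc ‖(e' : ℂ) / (e' - e)‖ * 2 ≤ 2 * e' / e * 2 := by gcongr
    _ = 4 * e' / e := by ring

theorem VV_sub (x x' : ℝ) {e : ℝ} (he : 0 < e) : ‖VV x' e - VV x e‖ ≤ |x' - x| / e := by
  refine ContinuousLinearMap.opNorm_le_bound _ (by positivity) fun f => ?_
  have h := resid_VV x' x he he f
  have h1 : (VV x' e - VV x e) f = (e : ℂ) • (YS.En ((e : ℂ) - Complex.I * (x' : ℂ)) f -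
      YS.En ((e : ℂ) - Complex.I * (x : ℂ)) f) := by
    unfold VV
    rw [sub_apply, smul_apply, smul_apply, smul_sub]
  have hE : ∀ (x : ℝ) (g : Y), ‖YS.En ((e : ℂ) - Complex.I * (x : ℂ)) g‖ ≤ 1 / e * ‖g‖ := by
    intro x g
    refine (ContinuousLinearMap.le_opNorm _ _).trans ?_
    have h := YS.En_norm (a := (e : ℂ) - Complex.I * (x : ℂ)) (by rw [re_par]; exact he)
    rw [re_par] at h
    exact mul_le_mul_of_nonneg_right h (norm_nonneg _)
  rw [h1, h, norm_smul, norm_smul, Complex.norm_real, Real.norm_of_nonneg he.le]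
  have h2 : ‖((e : ℂ) - Complex.I * (x : ℂ)) - ((e : ℂ) - Complex.I * (x' : ℂ))‖ = |x' - x| := by
    have : ((e : ℂ) - Complex.I * (x : ℂ)) - ((e : ℂ) - Complex.I * (x' : ℂ)) =
        Complex.I * ((x' - x : ℝ) : ℂ) := by push_cast; ring
    rw [this, norm_mul, Complex.norm_I, one_mul, Complex.norm_real, Real.norm_eq_abs]
  rw [h2]
  have h3 := (hE x' (YS.En ((e : ℂ) - Complex.I * (x : ℂ)) f)).trans
    (mul_le_mul_of_nonneg_left (hE x f) (by positivity))
  calc e * (|x' - x| * ‖YS.En ((e : ℂ) - Complex.I * (x' : ℂ))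
        (YS.En ((e : ℂ) - Complex.I * (x : ℂ)) f)‖)
      ≤ e * (|x' - x| * (1 / e * (1 / e * ‖f‖))) := by gcongr
    _ = |x' - x| / e * ‖f‖ := by field_simp

/-- the factors, from the coefficients of LAG -/
theorem fact_core (a : ℝ → ℕ → ℂ) (ha1 : ∀ c : ℝ, 0 < c → Summable fun n => ‖a c n‖)
    (ha2 : ∀ c : ℝ, 0 < c → ∑' n, a c n = 0)
    (ha3 : ∀ c : ℝ, 0 < c → ∀ v : ℂ, ‖v‖ ≤ 1 → v ≠ 1 →
      ∑' n, a c n * v ^ n = (1 - v) ^ 2 * Complex.exp (-((c : ℂ) * v / (1 - v)))) :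
    FactProp (fun x m e => F (a (m / e)) (VV x e)) := by
  set A : ℝ → ℝ → ℝ → Op := fun x m e => F (a (m / e)) (VV x e) with hA
  have hc : ∀ {m e : ℝ}, 0 < m → 0 < e → 0 < m / e := fun hm he => div_pos hm he
  have hmult : ∀ (x m e : ℝ), 0 < m → 0 < e → ∀ z : ℂ, z.im ≤ 0 → z ≠ (x : ℂ) → ∀ f : Y,
      chi z (A x m e f) = mult x m e z * chi z f := by
    intro x m e hm he z hz hzx f
    rw [hA]
    dsimp only
    rw [F_chi (ha1 _ (hc hm he)) (VV_norm x he) (chi_VV hz x he) f]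
    congr 1
    have hw : Complex.I * (z - x) ≠ 0 := mul_ne_zero Complex.I_ne_zero (sub_ne_zero.2 hzx)
    have hew := add_ne hz x he
    have hec : (e : ℂ) ≠ 0 := by exact_mod_cast he.ne'
    have h1v : 1 - (e : ℂ) / ((e : ℂ) + Complex.I * (z - x)) =
        Complex.I * (z - x) / ((e : ℂ) + Complex.I * (z - x)) := by
      field_simp
      ring
    rw [ha3 _ (hc hm he) _ (norm_v_le hz x he) (fun h => by
      rw [h, sub_self] at h1v
      exact (div_ne_zero hw hew) h1v.symm), h1v]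
    unfold mult
    congr 2
    push_cast
    set w := Complex.I * (z - (x : ℂ))
    field_simp
  refine fun x m e hm he => ⟨fun s hs f => ?_, hmult x m e hm he, fun η hη => ?_,
    fun η hη => ?_⟩
  · have h := F_comm (R := Op) op_one (ha1 _ (hc hm he)) (VV_norm x he) (VV_YT x e hs)
    have h2 := congrArg (fun T : Op => T f) h
    simpa only [mul_apply_eq_comp] using h2
  · obtain ⟨t, ht0, ht⟩ := Th_small (ha1 _ (hc hm he)) (η := η / 3) (by positivity)
    refine ⟨min (e / 2) (t * e / 4), by positivity, fun e' he'0 he' => ?_⟩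
    have hee : e' ≤ e / 2 := he'.trans (min_le_left _ _)
    have hte : e' ≤ t * e / 4 := he'.trans (min_le_right _ _)
    have h1 : ‖VV x e * VV x e' - VV x e'‖ ≤ t := by
      refine (VV_mul x he he'0 hee).trans ?_
      rw [div_le_iff₀ he]
      linarith
    have h2 : ‖A x m e * VV x e'‖ ≤ η / 3 :=
      (F_mul (R := Op) op_one (ha1 _ (hc hm he)) (ha2 _ (hc hm he)) (VV_norm x he)
        (VV_norm x he'0) h1).trans ht
    have hm2 : 0 < m / 2 := by positivity
    have h3 : A x m e * ((1 - VV x e') * (1 - VV x e')) =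
        A x (m / 2) e * A x (m / 2) e' := by
      ext1 f
      rw [← sub_eq_zero]
      refine H85.lapu _ fun z hz => ?_
      have hz' := hz.le
      have hzx : z ≠ (x : ℂ) := fun h => by
        rw [h] at hz
        simp at hz
      rw [map_sub, mul_apply_eq_comp, hmult x m e hm he z hz' hzx, mul_apply_eq_comp,
        mul_apply_eq_comp, hmult x _ e hm2 he z hz' hzx, hmult x _ e' hm2 he'0 z hz' hzx]
      have h4 : ∀ g : Y, chi z ((1 - VV x e') g) =
          (1 - (e' : ℂ) / ((e' : ℂ) + Complex.I * (z - x))) * chi z g := by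
        intro g
        rw [sub_apply, map_sub, chi_VV hz' x he'0, one_apply_eq_self]
        ring
      rw [h4, h4]
      have hew := add_ne hz' x he'0
      have h1v : 1 - (e' : ℂ) / ((e' : ℂ) + Complex.I * (z - x)) =
          Complex.I * (z - x) / ((e' : ℂ) + Complex.I * (z - x)) := by
        field_simp
        ring
      rw [h1v]
      unfold mult
      set w := Complex.I * (z - (x : ℂ))
      have h5 : Complex.exp (-((m : ℂ) / w)) = Complex.exp (-(((m / 2 : ℝ) : ℂ) / w)) *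
          Complex.exp (-(((m / 2 : ℝ) : ℂ) / w)) := by
        rw [← Complex.exp_add]
        congr 1
        push_cast
        ring
      rw [h5]
      ring
    rw [← h3]
    refine (le_of_eq (congrArg (fun T : Op => ‖T‖) (sq_identity (A x m e) (VV x e')))).trans ?_
    exact (op_mul_le_of (R := Op) h2 (norm_two_sub_le (R := Op) op_one (VV_norm x he'0))).trans
      (by linarith)
  · obtain ⟨t, ht0, ht⟩ := Th_small (ha1 _ (hc hm he)) hη
    refine ⟨t * e, by positivity, fun x' hx' => ?_⟩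
    have h1 : ‖VV x' e - VV x e‖ ≤ t := by
      refine (VV_sub x x' he).trans ?_
      rw [div_le_iff₀ he]
      exact hx'
    exact (F_close (R := Op) op_one (ha1 _ (hc hm he)) (VV_norm x' he) (VV_norm x he) h1).trans ht

/-- FACT -/
theorem fact : FactStmt := by
  have hl := H72.lag
  unfold LagStmt at hl
  choose! a ha1 ha2 ha3 using hl
  exact ⟨_, fact_core a ha1 ha2 ha3⟩

end

end Pool.Agent.H78E.H34
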