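import Pool.Agent.Helper34_E.Fact
import Pool.Agent.Helper78_E.Stmts4

/-!
# MP_7d2497_an, module FACT2
-/

namespace Pool.Agent.H78E.H34

open MeasureTheory Filter Topology Complex

noncomputable section

section General

variable {R : Type*} [NormedRing R] [NormedAlgebra ℂ R] [CompleteSpace R]

theorem F_norm (h1 : ‖(1 : R)‖ ≤ 1) {b : ℕ → ℂ} (hb : Summable fun n => ‖b n‖) {S : R}
    (hS : ‖S‖ ≤ 1) : ‖F b S‖ ≤ ∑' n, ‖b n‖ := by
  unfold F
  refine tsum_of_norm_bounded hb.hasSum fun n => ?_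
  rw [norm_smul]
  exact mul_le_of_le_one_right (norm_nonneg _) (op_pow h1 hS n)

theorem F_sub_one (h1 : ‖(1 : R)‖ ≤ 1) {b : ℕ → ℂ} (hb : Summable fun n => ‖b n‖)
    (hb0 : b 0 = 1) {S : R} (hS : ‖S‖ ≤ 1) : F b S = 1 + F (fun n => b (n + 1)) S * S := by
  have h2 := F_summable h1 hb hS
  have hb' : Summable fun n => ‖b (n + 1)‖ := (summable_nat_add_iff 1).2 hb
  have h3 := F_summable h1 hb' hS
  unfold F
  rw [h2.tsum_eq_zero_add, ← h3.tsum_mul_right, hb0, pow_zero, one_smul]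
  congr 1
  refine tsum_congr fun n => ?_
  rw [smul_mul_assoc, pow_succ]

end General

/-- the range of the resolvent is dense -/
theorem range_dense (p : Y) {η : ℝ} (hη : 0 < η) : ∃ u : Y, ‖YS.En 1 u - p‖ ≤ η := by
  have h1 : (0 : ℝ) < (1 : ℂ).re := by simp
  have hc : Continuous fun s : ℝ => Complex.exp (-((1 : ℂ) * (s : ℂ))) • YS.T (max s 0) p := by
    have h9 : Continuous fun s : ℝ => Complex.exp (-((1 : ℂ) * (s : ℂ))) := by fun_prop
    exact h9.smul (YS.cont p)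
  have hd : HasDerivAt (fun v : ℝ => ∫ s in (0 : ℝ)..v,
      Complex.exp (-((1 : ℂ) * (s : ℂ))) • YS.T (max s 0) p)
      (Complex.exp (-((1 : ℂ) * ((0 : ℝ) : ℂ))) • YS.T (max 0 0) p) 0 :=
    (hc.integral_hasStrictDerivAt 0 0).hasDerivAt
  have hv0 : Complex.exp (-((1 : ℂ) * ((0 : ℝ) : ℂ))) • YS.T (max 0 0) p = p := by
    rw [max_self, YS.zero]
    simp
  rw [hv0] at hd
  have hs := hasDerivAt_iff_tendsto_slope.1 hd
  have hs2 : Tendsto (slope (fun v : ℝ => ∫ s in (0 : ℝ)..v,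
      Complex.exp (-((1 : ℂ) * (s : ℂ))) • YS.T (max s 0) p) 0) (𝓝[>] 0) (𝓝 p) :=
    hs.mono_left (nhdsWithin_mono _ fun x hx => ne_of_gt hx)
  have hev := hs2.eventually (Metric.ball_mem_nhds p hη)
  obtain ⟨v, hv1, hv2⟩ := (hev.and self_mem_nhdsWithin).exists
  have hv : (0 : ℝ) < v := hv2
  refine ⟨(v : ℝ)⁻¹ • (p - Complex.exp (-((1 : ℂ) * (v : ℂ))) • YT v p), ?_⟩
  have h2 := YS.T_En h1 p hv.le
  rw [YS_T, ← En_YT 1 hv.le p] at h2
  have h3 : YS.En 1 ((v : ℝ)⁻¹ • (p - Complex.exp (-((1 : ℂ) * (v : ℂ))) • YT v p)) =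
      slope (fun v : ℝ => ∫ s in (0 : ℝ)..v,
      Complex.exp (-((1 : ℂ) * (s : ℂ))) • YS.T (max s 0) p) 0 v := by
    rw [slope_def_module, sub_zero, intervalIntegral.integral_same, sub_zero,
      map_real_smul (YS.En 1) (YS.En 1).continuous,
      map_sub, map_smul, h2, YS_T]
    congr 1
    abel
  rw [h3, ← dist_eq_norm]
  exact (Metric.mem_ball.1 hv1).le

theorem VV_range (u : Y) {x m : ℝ} (hm : 1 ≤ m) (hx : x ≠ 0) :
    ‖VV x m (YS.En 1 u)‖ ≤ 2 * m / |x| * ‖u‖ := by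
  have hm0 : 0 < m := by linarith
  have h := H13.resid Y YS ((m : ℂ) - Complex.I * (x : ℂ)) 1 (by rw [re_par]; exact hm0)
    (by simp) u
  have hne : |x| ≤ ‖(1 : ℂ) - ((m : ℂ) - Complex.I * (x : ℂ))‖ := by
    have : ((1 : ℂ) - ((m : ℂ) - Complex.I * (x : ℂ))).im = x := by simp
    calc |x| = |((1 : ℂ) - ((m : ℂ) - Complex.I * (x : ℂ))).im| := by rw [this]
      _ ≤ _ := Complex.abs_im_le_norm _
  have hx0 : 0 < |x| := abs_pos.2 hx
  have h1 : ‖YS.En ((m : ℂ) - Complex.I * (x : ℂ)) u - YS.En 1 u‖ ≤ 2 * ‖u‖ := by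
    refine (norm_sub_le _ _).trans ?_
    have a1 : ‖YS.En ((m : ℂ) - Complex.I * (x : ℂ)) u‖ ≤ 1 * ‖u‖ := by
      refine (ContinuousLinearMap.le_opNorm _ _).trans ?_
      gcongr
      refine (YS.En_norm (by rw [re_par]; exact hm0)).trans ?_
      rw [re_par, div_le_one hm0]
      exact hm
    have a2 : ‖YS.En 1 u‖ ≤ 1 * ‖u‖ := by
      refine (ContinuousLinearMap.le_opNorm _ _).trans ?_
      gcongr
      refine (YS.En_norm (by simp)).trans ?_
      simp
    linarith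
  have h2 : |x| * ‖YS.En ((m : ℂ) - Complex.I * (x : ℂ)) (YS.En 1 u)‖ ≤ 2 * ‖u‖ := by
    rw [h, norm_smul] at h1
    exact (mul_le_mul_of_nonneg_right hne (norm_nonneg _)).trans h1
  unfold VV
  rw [smul_apply, norm_smul, Complex.norm_real, Real.norm_of_nonneg hm0.le]
  rw [div_mul_eq_mul_div, le_div_iff₀ hx0]
  calc m * ‖YS.En ((m : ℂ) - Complex.I * (x : ℂ)) (YS.En 1 u)‖ * |x|
      = m * (|x| * ‖YS.En ((m : ℂ) - Complex.I * (x : ℂ)) (YS.En 1 u)‖) := by ring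
    _ ≤ m * (2 * ‖u‖) := by gcongr
    _ = 2 * m * ‖u‖ := by ring

/-- FACT2 -/
theorem fact2 : Fact2Stmt := by
  have hl := H72.lag
  unfold LagStmt at hl
  choose! a ha1 ha2 ha3 using hl
  refine ⟨_, fact_core a ha1 ha2 ha3, fun p η hη => ?_⟩
  have h10 : a 1 0 = 1 := by
    have h := ha3 1 one_pos 0 (by simp) (by simp)
    rw [tsum_eq_single 0 (by
      intro n hn
      rw [zero_pow hn, mul_zero])] at h
    simpa using h
  set b : ℕ → ℂ := fun n => a 1 (n + 1) with hb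
  have hbs : Summable fun n => ‖b n‖ := (summable_nat_add_iff 1).2 (ha1 1 one_pos)
  set C := ∑' n, ‖b n‖ with hC
  have hC0 : 0 ≤ C := tsum_nonneg fun n => norm_nonneg _
  obtain ⟨u, hu⟩ := range_dense p (η := η / (2 * (C + 1))) (by positivity)
  refine ⟨η / (4 * (C + 1) * (‖u‖ + 1)), by positivity, fun x m hm hmx => ?_⟩
  have hm0 : 0 < m := by linarith
  have hx : x ≠ 0 := by
    rintro rfl
    rw [abs_zero, mul_zero] at hmx
    linarith
  have hx0 : 0 < |x| := abs_pos.2 hx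
  rw [div_self hm0.ne', F_sub_one (R := Op) op_one (ha1 1 one_pos) h10 (VV_norm x hm0)]
  have h1 : ((1 : Op) + F b (VV x m) * VV x m) p - p = F b (VV x m) (VV x m p) := by
    rw [add_apply, mul_apply_eq_comp, one_apply_eq_self, add_sub_cancel_left]
  rw [h1]
  have h2 : ‖F b (VV x m) (VV x m p)‖ ≤ C * ‖VV x m p‖ := by
    refine (ContinuousLinearMap.le_opNorm _ _).trans ?_
    have := F_norm (R := Op) op_one hbs (VV_norm x hm0)
    exact mul_le_mul_of_nonneg_right this (norm_nonneg _)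
  have h3 : ‖VV x m p‖ ≤ η / (2 * (C + 1)) + 2 * m / |x| * ‖u‖ := by
    have e : VV x m p = VV x m (YS.En 1 u) - VV x m (YS.En 1 u - p) := by
      rw [map_sub]; abel
    rw [e]
    refine (norm_sub_le _ _).trans ?_
    have h4 : ‖VV x m (YS.En 1 u - p)‖ ≤ η / (2 * (C + 1)) := by
      refine (ContinuousLinearMap.le_opNorm _ _).trans ?_
      calc ‖VV x m‖ * ‖YS.En 1 u - p‖ ≤ 1 * (η / (2 * (C + 1))) := by
            gcongr
            exact VV_norm x hm0
        _ = _ := one_mul _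
    have h5 := VV_range u hm hx
    linarith
  have h6 : 2 * m / |x| * ‖u‖ ≤ η / (2 * (C + 1)) := by
    have h7 : m / |x| ≤ η / (4 * (C + 1) * (‖u‖ + 1)) := by
      rw [div_le_iff₀ hx0]
      exact hmx
    calc 2 * m / |x| * ‖u‖ = 2 * (m / |x|) * ‖u‖ := by ring
      _ ≤ 2 * (η / (4 * (C + 1) * (‖u‖ + 1))) * (‖u‖ + 1) := by
        gcongr
        linarith
      _ = η / (2 * (C + 1)) := by
        field_simp
        ring
  calc ‖F b (VV x m) (VV x m p)‖ ≤ C * ‖VV x m p‖ := h2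
    _ ≤ C * (η / (2 * (C + 1)) + η / (2 * (C + 1))) := by gcongr; linarith
    _ = C / (C + 1) * η := by field_simp; ring
    _ ≤ 1 * η := by
      gcongr
      rw [div_le_one (by positivity)]
      linarith
    _ = η := one_mul η

end

end Pool.Agent.H78E.H34
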