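import Pool.Agent.Helper34_E.ThinOp
import Pool.Agent.Helper34_E.Fact2

/-!
# MP_7d2497_an, module FAR: clusters going to infinity
-/

namespace Pool.Agent.H78E.H34

open MeasureTheory Filter Topology Complex

noncomputable section

/-- the mass of the cluster number `j` -/
def mf (j : ℕ) (x : ℝ) : ℝ := max 1 ((j : ℝ) + 6 * Real.log (2 + |x|))

theorem far_radius (j : ℕ) {δ : ℝ} (hδ : 0 < δ) : ∃ R : ℝ, ∀ x : ℝ, R ≤ |x| →
    10 * 4 ^ j ≤ |x| ∧ mf j x ≤ δ * |x| ∧ mf j x * 2 ^ j ≤ Real.sqrt |x| := by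
  set c : ℝ := (1 / 2) ^ j with hc
  have hc0 : 0 < c := by positivity
  have hs : Tendsto (fun r : ℝ => Real.sqrt r) atTop atTop := Real.tendsto_sqrt_atTop
  have e1 : ∀ᶠ r : ℝ in atTop, 10 * (4 : ℝ) ^ j ≤ r := eventually_ge_atTop _
  have e0 : ∀ᶠ r : ℝ in atTop, (1 : ℝ) ≤ r := eventually_ge_atTop _
  have e2 : ∀ᶠ r : ℝ in atTop, 1 / c ≤ Real.sqrt r := hs.eventually (eventually_ge_atTop _)
  have e3 : ∀ᶠ r : ℝ in atTop, 2 * j / c ≤ Real.sqrt r := hs.eventually (eventually_ge_atTop _)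
  have e5 : ∀ᶠ r : ℝ in atTop, c / δ ≤ Real.sqrt r := hs.eventually (eventually_ge_atTop _)
  have e4 : ∀ᶠ r : ℝ in atTop, ‖Real.log (2 + r)‖ ≤ c / 24 * ‖(2 + r) ^ (1 / 2 : ℝ)‖ := by
    have h := (isLittleO_log_rpow_atTop (show (0 : ℝ) < 1 / 2 by norm_num)).def
      (show 0 < c / 24 by positivity)
    exact (tendsto_atTop_add_const_left atTop (2 : ℝ) tendsto_id).eventually h
  obtain ⟨R, hR⟩ := (((((e1.and e0).and e2).and e3).and e5).and e4).exists_forall_of_atTop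
  refine ⟨R, fun x hx => ?_⟩
  obtain ⟨⟨⟨⟨⟨h1, h0⟩, h2⟩, h3⟩, h5⟩, h4⟩ := hR |x| hx
  set r := |x| with hr
  have hr0 : 0 ≤ r := abs_nonneg x
  have hsq : Real.sqrt r * Real.sqrt r = r := Real.mul_self_sqrt hr0
  have hs0 : 0 ≤ Real.sqrt r := Real.sqrt_nonneg r
  have hlog : 6 * Real.log (2 + r) ≤ c / 2 * Real.sqrt r := by
    have h6 : Real.log (2 + r) ≤ ‖Real.log (2 + r)‖ := Real.le_norm_self _
    rw [← Real.sqrt_eq_rpow, Real.norm_of_nonneg (Real.sqrt_nonneg _)] at h4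
    have h7 : Real.sqrt (2 + r) ≤ 2 * Real.sqrt r := by
      rw [show 2 * Real.sqrt r = Real.sqrt (4 * r) by
        rw [Real.sqrt_mul (by norm_num), show (4 : ℝ) = 2 ^ 2 by norm_num,
          Real.sqrt_sq (by norm_num)]]
      exact Real.sqrt_le_sqrt (by linarith)
    have h8 : c / 24 * Real.sqrt (2 + r) ≤ c / 24 * (2 * Real.sqrt r) := by gcongr
    linarith
  have hj : (j : ℝ) ≤ c / 2 * Real.sqrt r := by
    rw [div_le_iff₀ hc0] at h3
    linarith
  have h1' : 1 ≤ c * Real.sqrt r := by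
    rw [div_le_iff₀ hc0] at h2
    linarith
  have hm : mf j x ≤ c * Real.sqrt r := by
    unfold mf
    rw [← hr]
    refine max_le h1' ?_
    linarith
  refine ⟨h1, hm.trans ?_, ?_⟩
  · rw [div_le_iff₀ hδ] at h5
    calc c * Real.sqrt r ≤ (Real.sqrt r * δ) * Real.sqrt r := by gcongr
      _ = δ * (Real.sqrt r * Real.sqrt r) := by ring
      _ = δ * r := by rw [hsq]
  · have h9 : c * 2 ^ j = 1 := by
      rw [hc, ← mul_pow]
      norm_num
    calc mf j x * 2 ^ j ≤ c * Real.sqrt r * 2 ^ j := by gcongr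
      _ = (c * 2 ^ j) * Real.sqrt r := by ring
      _ = Real.sqrt r := by rw [h9, one_mul]

/-- one stage of the construction -/
structure Stage (A : ℝ → ℝ → ℝ → (Y →L[ℂ] Y)) (L : Set ℝ) (j : ℕ) (p : Y) where
  D : Set ℝ
  x0 : ℝ
  T : ThinOp A D x0 (mf j x0) ((1 / 2 : ℝ) ^ j / (1 + ‖p‖))
  D_closed : IsClosed D
  D_sub : D ⊆ L
  x0_mem : x0 ∈ D
  x0_large : 10 * 4 ^ j ≤ |x0|
  m_small : mf j x0 * 2 ^ j ≤ Real.sqrt |x0|
  near : ‖A x0 (mf j x0) (mf j x0) p - p‖ ≤ (1 / 2 : ℝ) ^ j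

theorem exists_stage {A : ℝ → ℝ → ℝ → (Y →L[ℂ] Y)} (hA : Fact2Prop A) (hT : ThinOpStmt)
    {L : Set ℝ} (hL : ∀ R : ℝ, ∃ K ⊆ L, (∀ x ∈ K, R ≤ |x|) ∧ IsClosed K ∧ ¬ K.Countable)
    (j : ℕ) (p : Y) : Nonempty (Stage A L j p) := by
  obtain ⟨δ, hδ, hδ2⟩ := hA.2 p ((1 / 2 : ℝ) ^ j) (by positivity)
  obtain ⟨R, hR⟩ := far_radius j hδ
  obtain ⟨K, hKL, hKR, hKc, hKu⟩ := hL R
  obtain ⟨D, hD, ⟨x0, hx0⟩, hDK⟩ := exists_perfect_nonempty_of_isClosed_of_not_countable hKc hKu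
  obtain ⟨h1, h2, h3⟩ := hR x0 (hKR x0 (hDK hx0))
  have hm1 : 1 ≤ mf j x0 := le_max_left _ _
  obtain ⟨T⟩ := hT A hA.1 D hD.closed hD.acc x0 (mf j x0) ((1 / 2 : ℝ) ^ j / (1 + ‖p‖)) hx0
    (by linarith) (by positivity)
  exact ⟨⟨D, x0, T, hD.closed, hDK.trans hKL, hx0, h1, h3, hδ2 x0 _ hm1 h2⟩⟩

theorem tendsto_apply {E : Type*} [NormedAddCommGroup E] [NormedSpace ℂ E] {F : ℕ → E →L[ℂ] E}
    {M : E →L[ℂ] E} {u : ℕ → E} {p : E} (h : Tendsto F atTop (𝓝 M)) (h2 : Tendsto u atTop (𝓝 p)) :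
    Tendsto (fun v => F v (u v)) atTop (𝓝 (M p)) :=
  (isBoundedBilinearMap_apply (𝕜 := ℂ) (E := E) (F := E)).continuous.continuousAt.tendsto.comp
    (h.prodMk_nhds h2)

theorem stage_step {A : ℝ → ℝ → ℝ → (Y →L[ℂ] Y)} {L : Set ℝ} {j : ℕ} {p : Y}
    (S : Stage A L j p) : ‖S.T.M p - p‖ ≤ 2 * (1 / 2 : ℝ) ^ j := by
  have h1 := S.near
  have h2 := S.T.close
  have e : S.T.M p - p = (S.T.M - A S.x0 (mf j S.x0) (mf j S.x0)) p +
      (A S.x0 (mf j S.x0) (mf j S.x0) p - p) := by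
    rw [sub_apply]
    abel
  rw [e]
  refine (norm_add_le _ _).trans ?_
  have h3 : ‖(S.T.M - A S.x0 (mf j S.x0) (mf j S.x0)) p‖ ≤ (1 / 2 : ℝ) ^ j := by
    refine (ContinuousLinearMap.le_opNorm _ _).trans ?_
    calc _ ≤ (1 / 2 : ℝ) ^ j / (1 + ‖p‖) * (1 + ‖p‖) := by
          gcongr
          linarith
      _ = (1 / 2 : ℝ) ^ j := by
          have : 1 + ‖p‖ ≠ 0 := by positivity
          field_simp
  linarith

section Seq

variable {A : ℝ → ℝ → ℝ → (Y →L[ℂ] Y)} {L : Set ℝ} (st : ∀ (j : ℕ) (p : Y), Stage A L j p)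

/-- the vectors of the construction -/
def ps : ℕ → Y
  | 0 => rr
  | j + 1 => (st j (ps j)).T.M (ps j)

/-- the stage number `j` -/
def sg (j : ℕ) : Stage A L j (ps st j) := st j (ps st j)

/-- the approximations -/
def qs (v : ℕ) : ℕ → Y
  | 0 => rr
  | j + 1 => (sg st j).T.Mn v (qs v j)

theorem ps_succ (j : ℕ) : ps st (j + 1) = (sg st j).T.M (ps st j) := rfl

theorem qs_succ (v j : ℕ) : qs st v (j + 1) = (sg st j).T.Mn v (qs st v j) := rfl

theorem qs_tendsto (j : ℕ) : Tendsto (fun v => qs st v j) atTop (𝓝 (ps st j)) := by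
  induction j with
  | zero => exact tendsto_const_nhds
  | succ j ih =>
    simp only [qs_succ, ps_succ]
    exact tendsto_apply (E := Y) (sg st j).T.lim ih

theorem ps_step (j : ℕ) : ‖ps st (j + 1) - ps st j‖ ≤ 2 * (1 / 2 : ℝ) ^ j := by
  rw [ps_succ]
  exact stage_step (sg st j)

theorem chi_qs (v j : ℕ) (z : ℂ) (hz : z.im ≤ 0) (hzx : ∀ j i, z ≠ ((sg st j).T.x i : ℂ)) :
    chi z (qs st v j) = (∏ l ∈ Finset.range j, ∏ i ∈ Finset.range (2 ^ v),
      mult ((sg st l).T.x i) (mf l (sg st l).x0 * (1 / 2 : ℝ) ^ v) ((sg st l).T.e i) z) *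
      chi z rr := by
  induction j with
  | zero => simp [qs]
  | succ j ih =>
    rw [qs_succ, (sg st j).T.chi_Mn v _ z hz (fun i _ => hzx j i), ih, Finset.prod_range_succ]
    ring

end Seq

/-- FAR -/
theorem far (hF : Fact2Stmt) (hT : ThinOpStmt) : FarStmt := by
  obtain ⟨A, hA⟩ := hF
  intro L hL
  let st : ∀ (j : ℕ) (p : Y), Stage A L j p := fun j p =>
    Classical.choice (exists_stage hA hT hL j p)
  have hlim := geo_cauchy (ps st) 2 (ps_step st)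
  obtain ⟨f, hf⟩ := cauchySeq_tendsto_of_complete hlim
  have hv : ∀ n : ℕ, ∃ v : ℕ, n ≤ v ∧ ‖qs st v n - ps st n‖ ≤ (1 / 2 : ℝ) ^ n := by
    intro n
    have h1 := (qs_tendsto st n).eventually (Metric.ball_mem_nhds _
      (show (0 : ℝ) < (1 / 2) ^ n by positivity))
    obtain ⟨v, h2, h3⟩ := (h1.and (eventually_ge_atTop n)).exists
    refine ⟨v, h3, ?_⟩
    rw [← dist_eq_norm]
    exact (Metric.mem_ball.1 h2).le
  choose v hv1 hv2 using hv
  have hx_mem : ∀ j i, (sg st j).T.x i ∈ (sg st j).D := fun j i => (sg st j).T.x_mem i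
  have hx0 : ∀ j, (sg st j).T.x 0 = (sg st j).x0 := fun j => (sg st j).T.x_zero
  refine ⟨⟨⋃ j, (sg st j).D ∩ Metric.closedBall (sg st j).x0 1, fun j i => (sg st j).T.x i,
    fun j i => (sg st j).T.e i, fun j => mf j (sg st j).x0, v, f, fun n => qs st (v n) n, ?_, ?_,
    fun j i => ?_, fun j i => (sg st j).T.x_near i, fun u hu => ?_, fun j => ?_, fun j =>
    le_max_left _ _, fun j => ?_, fun j => ?_, fun j i => (sg st j).T.e_pos i,
    fun j => (sg st j).T.e_sum, fun j => (sg st j).T.e_le, fun j N => (sg st j).T.sep N, hv1, ?_,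
    fun n z hz hzx => chi_qs st (v n) n z hz hzx⟩⟩
  · -- closed
    refine LocallyFinite.isClosed_iUnion (fun u => ?_) fun j =>
      (sg st j).D_closed.inter Metric.isClosed_closedBall
    refine ⟨Metric.ball u 1, Metric.ball_mem_nhds u one_pos, ?_⟩
    obtain ⟨N, hN⟩ := exists_nat_gt (|u| + 2)
    refine (Set.finite_lt_nat N).subset fun j hj => ?_
    obtain ⟨w, ⟨_, hw1⟩, hw2⟩ := hj
    rw [Metric.mem_closedBall, Real.dist_eq] at hw1
    rw [Metric.mem_ball, Real.dist_eq] at hw2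
    have h1 := (sg st j).x0_large
    have h2 : |(sg st j).x0| ≤ |u| + 2 := by
      have e : (sg st j).x0 = u + (w - u) - (w - (sg st j).x0) := by ring
      rw [e]
      have a1 := abs_sub (u + (w - u)) (w - (sg st j).x0)
      have a2 := abs_add_le u (w - u)
      linarith
    have h3 : (j : ℝ) < 4 ^ j := by exact_mod_cast Nat.lt_pow_self (by norm_num : 1 < 4)
    have h4 : (j : ℝ) < N := by
      have : (0 : ℝ) < 4 ^ j := by positivity
      linarith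
    exact_mod_cast h4
  · exact Set.iUnion_subset fun j => Set.inter_subset_left.trans (sg st j).D_sub
  · refine Set.mem_iUnion.2 ⟨j, hx_mem j i, ?_⟩
    rw [Metric.mem_closedBall, Real.dist_eq]
    have h := (sg st j).T.x_near i
    rwa [hx0] at h
  · obtain ⟨j, _, hj⟩ := Set.mem_iUnion.1 hu
    refine ⟨j, ?_⟩
    rw [Metric.mem_closedBall, Real.dist_eq] at hj
    rw [hx0]
    exact hj
  · skip
    rw [hx0]
    exact (sg st j).x0_large
  · skip
    rw [hx0]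
    exact le_max_right _ _
  · skip
    rw [hx0]
    exact (sg st j).m_small
  · -- limit
    have h1 : Tendsto (fun n => qs st (v n) n - ps st n) atTop (𝓝 0) := by
      refine squeeze_zero_norm hv2 ?_
      exact tendsto_pow_atTop_nhds_zero_of_lt_one (by norm_num) (by norm_num)
    have h2 := h1.add hf
    simpa using h2

/-- FAR, unconditional -/
theorem far' : FarStmt := far fact2 thinop

end

end Pool.Agent.H78E.H34
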