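import Pool.Agent.Helper78_E.Stmts2

/-!
# MP_7d2497_an, module THIN: the thin Cantor construction
-/

namespace Pool.Agent.H78E.H34

open MeasureTheory Filter Topology Complex

noncomputable section

/-- dependent choice -/
theorem exists_chain {α : Type*} (V : ℕ → α → Prop) (R : ℕ → α → α → Prop) (h0 : ∃ a, V 0 a)
    (h : ∀ n a, V n a → ∃ b, V (n + 1) b ∧ R n a b) :
    ∃ s : ℕ → α, (∀ n, V n (s n)) ∧ ∀ n, R n (s n) (s (n + 1)) := by
  obtain ⟨a0, ha0⟩ := h0
  have : Nonempty α := ⟨a0⟩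
  choose! g hg using h
  let s : ℕ → α := fun n => Nat.rec a0 (fun n a => g n a) n
  have hs : ∀ n, V n (s n) := fun n => by
    induction n with
    | zero => exact ha0
    | succ n ih => exact (hg n (s n) ih).1
  exact ⟨s, hs, fun n => (hg n (s n) (hs n)).2⟩

/-- distinct representatives -/
theorem exists_distinct (m : ℕ) (S : ℕ → Set ℝ) (hS : ∀ i < m, (S i).Infinite) :
    ∃ c : ℕ → ℝ, (∀ i < m, c i ∈ S i) ∧ ∀ i j, i < m → j < m → c i = c j → i = j := by
  induction m with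
  | zero => exact ⟨fun _ => 0, fun i hi => absurd hi (by omega), fun i j hi => absurd hi (by omega)⟩
  | succ m ih =>
    obtain ⟨c, hc1, hc2⟩ := ih fun i hi => hS i (by omega)
    obtain ⟨a, ha1, ha2⟩ := (hS m (by omega)).exists_notMem_finset ((Finset.range m).image c)
    have key : ∀ i < m, c i ≠ a := fun i hi h =>
      ha2 (Finset.mem_image.2 ⟨i, Finset.mem_range.2 hi, h⟩)
    refine ⟨fun i => if i < m then c i else a, fun i hi => ?_, fun i j hi hj h => ?_⟩
    · by_cases him : i < m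
      · simp only [him, if_true]
        exact hc1 i him
      · simp only [him, if_false]
        have : i = m := by omega
        rw [this]
        exact ha1
    · by_cases him : i < m <;> by_cases hjm : j < m
      · simp only [him, hjm, if_true] at h
        exact hc2 i j him hjm h
      · simp only [him, hjm, if_true, if_false] at h
        exact absurd h (key i him)
      · simp only [him, hjm, if_true, if_false] at h
        exact absurd h.symm (key j hjm)
      · omega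

/-- finite products are continuous in their factors -/
theorem prod_close {R : Type*} [NormedRing R] (L : List ℕ) (A : ℕ → R) : ∀ η : ℝ, 0 < η →
    ∃ h : ℝ, 0 < h ∧ ∀ B : ℕ → R, (∀ i ∈ L, ‖B i - A i‖ ≤ h) →
      ‖(L.map B).prod - (L.map A).prod‖ ≤ η := by
  induction L with
  | nil =>
    intro η hη
    exact ⟨1, one_pos, fun B _ => by simpa using hη.le⟩
  | cons i L ih =>
    intro η hη
    obtain ⟨h, hh, hB⟩ := ih (η / (2 * (‖A i‖ + 1))) (by positivity)
    refine ⟨min (min h 1) (η / (2 * (‖(L.map A).prod‖ + 1))), by positivity, fun B hBi => ?_⟩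
    have h1 := hBi i List.mem_cons_self
    have h2 := hB B fun j hj => (hBi j (List.mem_cons_of_mem _ hj)).trans
      ((min_le_left _ _).trans (min_le_left _ _))
    have h3 : ‖B i - A i‖ ≤ 1 := h1.trans ((min_le_left _ _).trans (min_le_right _ _))
    have h4 : ‖B i - A i‖ ≤ η / (2 * (‖(L.map A).prod‖ + 1)) := h1.trans (min_le_right _ _)
    have h5 : ‖B i‖ ≤ ‖A i‖ + 1 := by
      have : B i = A i + (B i - A i) := by abel
      rw [this]
      exact (norm_add_le _ _).trans (by linarith)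
    rw [List.map_cons, List.prod_cons, List.map_cons, List.prod_cons]
    have e : B i * (L.map B).prod - A i * (L.map A).prod =
        B i * ((L.map B).prod - (L.map A).prod) + (B i - A i) * (L.map A).prod := by
      rw [mul_sub, sub_mul]
      abel
    rw [e]
    refine (norm_add_le _ _).trans ?_
    have h6 : ‖B i * ((L.map B).prod - (L.map A).prod)‖ ≤ η / 2 := by
      refine (norm_mul_le _ _).trans ?_
      calc ‖B i‖ * ‖(L.map B).prod - (L.map A).prod‖
          ≤ (‖A i‖ + 1) * (η / (2 * (‖A i‖ + 1))) := by gcongr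
        _ = η / 2 := by
          have : ‖A i‖ + 1 ≠ 0 := by positivity
          field_simp
    have h7 : ‖(B i - A i) * (L.map A).prod‖ ≤ η / 2 := by
      refine (norm_mul_le _ _).trans ?_
      calc ‖B i - A i‖ * ‖(L.map A).prod‖
          ≤ (η / (2 * (‖(L.map A).prod‖ + 1))) * (‖(L.map A).prod‖ + 1) := by
            gcongr
            linarith
        _ = η / 2 := by
          have : ‖(L.map A).prod‖ + 1 ≠ 0 := by positivity
          field_simp
    linarith

/-! ### The order of the factors -/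

/-- the order of the factors at level `n` -/
def lev : ℕ → List ℕ
  | 0 => [0]
  | n + 1 => (lev n).flatMap fun i => [i, i + 2 ^ n]

theorem mem_lev : ∀ {n i : ℕ}, i ∈ lev n → i < 2 ^ n
  | 0, i, h => by
    simp [lev] at h
    simp [h]
  | n + 1, i, h => by
    obtain ⟨j, hj, hi⟩ := List.mem_flatMap.1 h
    have := mem_lev hj
    simp only [List.mem_cons, List.not_mem_nil, or_false] at hi
    rw [pow_succ]
    omega

theorem pairs_prod {M : Type*} [Monoid M] (k : ℕ) (g : ℕ → M) : ∀ L : List ℕ,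
    ((L.flatMap fun i => [i, i + k]).map g).prod = (L.map fun i => g i * g (i + k)).prod
  | [] => rfl
  | i :: L => by
    rw [List.flatMap_cons, List.map_append, List.prod_append, pairs_prod k g L, List.map_cons,
      List.prod_cons]
    simp

theorem lev_succ_prod {M : Type*} [Monoid M] (n : ℕ) (g : ℕ → M) :
    ((lev (n + 1)).map g).prod = ((lev n).map fun i => g i * g (i + 2 ^ n)).prod :=
  pairs_prod _ g _

theorem lev_prod {M : Type*} [CommMonoid M] : ∀ (n : ℕ) (g : ℕ → M),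
    ((lev n).map g).prod = ∏ i ∈ Finset.range (2 ^ n), g i
  | 0, g => by simp [lev]
  | n + 1, g => by
    rw [lev_succ_prod, lev_prod n, Finset.prod_mul_distrib, pow_succ, mul_two,
      Finset.prod_range_add]
    congr 1
    exact Finset.prod_congr rfl fun i _ => by rw [add_comm]

/-- product of the factors at level `n` -/
def Mop (A : ℝ → ℝ → ℝ → (Y →L[ℂ] Y)) (n : ℕ) (s : ℕ → ℝ × ℝ) : Y →L[ℂ] Y :=
  ((lev n).map fun i => A (s i).1 ((1 / 2 : ℝ) ^ n) (s i).2).prod

theorem Mop_congr (A : ℝ → ℝ → ℝ → (Y →L[ℂ] Y)) (n : ℕ) (s s' : ℕ → ℝ × ℝ)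
    (h : ∀ i < 2 ^ n, s i = s' i) : Mop A n s = Mop A n s' := by
  unfold Mop
  congr 1
  refine List.map_congr_left fun i hi => ?_
  rw [h i (mem_lev hi)]

/-- the states of the construction -/
structure V (K : Set ℝ) (n : ℕ) (s : ℕ → ℝ × ℝ) : Prop where
  mem : ∀ i < 2 ^ n, (s i).1 ∈ K
  pos : ∀ i < 2 ^ n, 0 < (s i).2
  inj : ∀ i j, i < 2 ^ n → j < 2 ^ n → (s i).1 = (s j).1 → i = j
  e_le : ∀ i < 2 ^ n, (s i).2 ≤ (1 / 2 : ℝ) ^ i

/-- the steps of the construction -/
structure R (A : ℝ → ℝ → ℝ → (Y →L[ℂ] Y)) (y : ℕ → ℝ) (n : ℕ) (s s' : ℕ → ℝ × ℝ) : Prop where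
  same : ∀ i < 2 ^ n, s' i = s i
  near_y : ∀ i < 2 ^ n, ∀ N ≤ n, |(s' (i + 2 ^ n)).1 - (s i).1| ≤ y N / 2 ^ (n - N + 1)
  near : ∀ i < 2 ^ n, |(s' (i + 2 ^ n)).1 - (s i).1| ≤ (1 / 2 : ℝ) ^ (n + 2)
  near_gap : ∀ i < 2 ^ n, ∀ j < 2 ^ n, ∀ l < 2 ^ n, j ≠ l →
    |(s' (i + 2 ^ n)).1 - (s i).1| ≤ (1 / 2 : ℝ) ^ (n + 2) * |(s j).1 - (s l).1|
  close : ‖Mop A (n + 1) s' - Mop A n s‖ ≤ (1 / 2 : ℝ) ^ n

theorem op_mul_le (S T : Y →L[ℂ] Y) : ‖S * T‖ ≤ ‖S‖ * ‖T‖ := norm_mul_le S T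

theorem op_sub_le (S T : Y →L[ℂ] Y) : ‖S - T‖ ≤ ‖S‖ + ‖T‖ := norm_sub_le S T

theorem eventually_le {c : ℝ} (hc : 0 < c) : ∀ᶠ δ in 𝓝[>] (0 : ℝ), δ ≤ c :=
  mem_nhdsWithin_of_mem_nhds (Iic_mem_nhds hc)

theorem step {K : Set ℝ} (hK : Preperfect K) {y : ℕ → ℝ} (hy : ∀ N, 0 < y N)
    {A : ℝ → ℝ → ℝ → (Y →L[ℂ] Y)} (hA : FactProp A) (n : ℕ) (s : ℕ → ℝ × ℝ) (hs : V K n s) :
    ∃ s', V K (n + 1) s' ∧ R A y n s s' := by
  have hm : (0 : ℝ) < (1 / 2) ^ n := by positivity
  obtain ⟨h, hh, hprod⟩ := prod_close (lev n) (fun i => A (s i).1 ((1 / 2 : ℝ) ^ n) (s i).2)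
    ((1 / 2 : ℝ) ^ n) hm
  -- the distance
  obtain ⟨δ, hδ0, hδ1, hδ2, hδ3⟩ : ∃ δ : ℝ, 0 < δ ∧ (∀ N ≤ n, δ ≤ y N / 2 ^ (n - N + 1)) ∧
      δ ≤ (1 / 2 : ℝ) ^ (n + 2) ∧ ∀ j < 2 ^ n, ∀ l < 2 ^ n, j ≠ l →
        δ ≤ (1 / 2 : ℝ) ^ (n + 2) * |(s j).1 - (s l).1| := by
    have h1 : ∀ᶠ δ in 𝓝[>] (0 : ℝ), ∀ N ∈ Finset.range (n + 1), δ ≤ y N / 2 ^ (n - N + 1) :=
      (eventually_all_finset _).2 fun N _ => eventually_le (by have := hy N; positivity)
    have h2 : ∀ᶠ δ in 𝓝[>] (0 : ℝ), δ ≤ (1 / 2 : ℝ) ^ (n + 2) := eventually_le (by positivity)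
    have h3 : ∀ᶠ δ in 𝓝[>] (0 : ℝ), ∀ j ∈ Finset.range (2 ^ n), ∀ l ∈ Finset.range (2 ^ n),
        j ≠ l → δ ≤ (1 / 2 : ℝ) ^ (n + 2) * |(s j).1 - (s l).1| := by
      refine (eventually_all_finset _).2 fun j hj => (eventually_all_finset _).2 fun l hl => ?_
      by_cases hjl : j = l
      · exact Eventually.of_forall fun δ h => absurd hjl h
      · have h4 : 0 < |(s j).1 - (s l).1| := abs_pos.2 (sub_ne_zero.2 fun h =>
          hjl (hs.inj j l (Finset.mem_range.1 hj) (Finset.mem_range.1 hl) h))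
        exact (eventually_le (c := (1 / 2 : ℝ) ^ (n + 2) * |(s j).1 - (s l).1|)
          (by positivity)).mono fun δ h _ => h
    obtain ⟨δ, ⟨⟨h1, h2⟩, h3⟩, h4⟩ := (((h1.and h2).and h3).and self_mem_nhdsWithin).exists
    exact ⟨δ, h4, fun N hN => h1 N (Finset.mem_range.2 (by omega)), h2, fun j hj l hl =>
      h3 j (Finset.mem_range.2 hj) l (Finset.mem_range.2 hl)⟩
  -- the new parameters
  have hstep : ∀ i < 2 ^ n, ∃ e' δ' : ℝ, 0 < e' ∧ e' ≤ (1 / 2 : ℝ) ^ (i + 2 ^ n) ∧ 0 < δ' ∧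
      ∀ x' : ℝ, |x' - (s i).1| ≤ δ' → ‖A (s i).1 ((1 / 2 : ℝ) ^ (n + 1)) (s i).2 *
        A x' ((1 / 2 : ℝ) ^ (n + 1)) e' - A (s i).1 ((1 / 2 : ℝ) ^ n) (s i).2‖ ≤ h := by
    intro i hi
    have hmm : (1 / 2 : ℝ) ^ n / 2 = (1 / 2 : ℝ) ^ (n + 1) := by ring
    obtain ⟨-, -, h3, -⟩ := hA (s i).1 ((1 / 2 : ℝ) ^ n) (s i).2 hm (hs.pos i hi)
    obtain ⟨e0, he0, h3⟩ := h3 (h / 2) (by positivity)
    rw [hmm] at h3
    set e' := min e0 ((1 / 2 : ℝ) ^ (i + 2 ^ n)) with he'
    have he'0 : 0 < e' := by positivity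
    have h3' := h3 e' he'0 (min_le_left _ _)
    obtain ⟨-, -, -, h4⟩ := hA (s i).1 ((1 / 2 : ℝ) ^ (n + 1)) e' (by positivity) he'0
    set B := A (s i).1 ((1 / 2 : ℝ) ^ (n + 1)) (s i).2 with hB
    obtain ⟨δ', hδ', h4⟩ := h4 (h / (2 * (‖B‖ + 1))) (by positivity)
    refine ⟨e', δ', he'0, min_le_right _ _, hδ', fun x' hx' => ?_⟩
    have h5 := h4 x' hx'
    have e : B * A x' ((1 / 2 : ℝ) ^ (n + 1)) e' - A (s i).1 ((1 / 2 : ℝ) ^ n) (s i).2 =
        B * (A x' ((1 / 2 : ℝ) ^ (n + 1)) e' - A (s i).1 ((1 / 2 : ℝ) ^ (n + 1)) e') -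
        (A (s i).1 ((1 / 2 : ℝ) ^ n) (s i).2 - B * A (s i).1 ((1 / 2 : ℝ) ^ (n + 1)) e') := by
      rw [mul_sub]
      abel
    have h6 : ‖B * (A x' ((1 / 2 : ℝ) ^ (n + 1)) e' - A (s i).1 ((1 / 2 : ℝ) ^ (n + 1)) e')‖ ≤
        h / 2 := by
      refine (op_mul_le _ _).trans ?_
      calc ‖B‖ * ‖A x' ((1 / 2 : ℝ) ^ (n + 1)) e' - A (s i).1 ((1 / 2 : ℝ) ^ (n + 1)) e'‖
          ≤ (‖B‖ + 1) * (h / (2 * (‖B‖ + 1))) := by
            gcongr
            linarith
        _ = h / 2 := by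
          have : ‖B‖ + 1 ≠ 0 := by positivity
          field_simp
    rw [e]
    exact (op_sub_le _ _).trans (by linarith)
  choose! e' δ' he1 he2 hδ'0 hAA using hstep
  -- the new points
  obtain ⟨c, hc1, hc2⟩ := exists_distinct (2 ^ n)
    (fun i => (Metric.closedBall (s i).1 (min (δ' i) δ) ∩ K) \
      (((Finset.range (2 ^ n)).image fun j => (s j).1 : Finset ℝ) : Set ℝ)) (by
      intro i hi
      have h1 : Metric.closedBall (s i).1 (min (δ' i) δ) ∈ 𝓝 (s i).1 :=
        Metric.closedBall_mem_nhds _ (lt_min (hδ'0 i hi) hδ0)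
      exact (Set.Infinite.of_accPt ((hK _ (hs.mem i hi)).nhds_inter h1)).sdiff
        (Finset.finite_toSet _))
  have hcd : ∀ i < 2 ^ n, |c i - (s i).1| ≤ δ' i ∧ |c i - (s i).1| ≤ δ := fun i hi => by
    have := (hc1 i hi).1.1
    rw [Metric.mem_closedBall, Real.dist_eq] at this
    exact ⟨this.trans (min_le_left _ _), this.trans (min_le_right _ _)⟩
  have hcK : ∀ i < 2 ^ n, c i ∈ K := fun i hi => (hc1 i hi).1.2
  have hcs : ∀ i < 2 ^ n, ∀ j < 2 ^ n, (s j).1 ≠ c i := fun i hi j hj h => by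
    refine (hc1 i hi).2 ?_
    rw [Finset.mem_coe]
    exact Finset.mem_image.2 ⟨j, Finset.mem_range.2 hj, h⟩
  set s' : ℕ → ℝ × ℝ := fun i => if i < 2 ^ n then s i else (c (i - 2 ^ n), e' (i - 2 ^ n)) with hs'
  have hs1 : ∀ i < 2 ^ n, s' i = s i := fun i hi => by simp [hs', hi]
  have hs2 : ∀ i, s' (i + 2 ^ n) = (c i, e' i) := fun i => by simp [hs']
  have h2n : ∀ i, i < 2 ^ (n + 1) → i < 2 ^ n ∨ ∃ j < 2 ^ n, i = j + 2 ^ n := fun i hi => by
    rw [pow_succ] at hi
    rcases lt_or_ge i (2 ^ n) with h | h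
    · exact Or.inl h
    · exact Or.inr ⟨i - 2 ^ n, by omega, by omega⟩
  refine ⟨s', ⟨fun i hi => ?_, fun i hi => ?_, fun i j hi hj hij => ?_, fun i hi => ?_⟩, ⟨hs1,
    fun i hi N hN => ?_, fun i hi => ?_, fun i hi j hj l hl hjl => ?_, ?_⟩⟩
  · rcases h2n i hi with h | ⟨j, hj, rfl⟩
    · rw [hs1 i h]
      exact hs.mem i h
    · rw [hs2]
      exact hcK j hj
  · rcases h2n i hi with h | ⟨j, hj, rfl⟩
    · rw [hs1 i h]
      exact hs.pos i h
    · rw [hs2]
      exact he1 j hj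
  · rcases h2n i hi with h | ⟨i, hi', rfl⟩ <;> rcases h2n j hj with h' | ⟨j, hj', rfl⟩
    · rw [hs1 i h, hs1 j h'] at hij
      exact hs.inj i j h h' hij
    · rw [hs1 i h, hs2] at hij
      exact absurd hij (hcs j hj' i h)
    · rw [hs2, hs1 j h'] at hij
      exact absurd hij.symm (hcs i hi' j h')
    · rw [hs2, hs2] at hij
      rw [hc2 i j hi' hj' hij]
  · rcases h2n i hi with h | ⟨j, hj, rfl⟩
    · rw [hs1 i h]
      exact hs.e_le i h
    · rw [hs2]
      exact he2 j hj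
  · rw [hs2]
    exact (hcd i hi).2.trans (hδ1 N hN)
  · rw [hs2]
    exact (hcd i hi).2.trans hδ2
  · rw [hs2]
    exact (hcd i hi).2.trans (hδ3 j hj l hl hjl)
  · unfold Mop
    rw [lev_succ_prod]
    refine hprod _ fun i hi => ?_
    have hi' := mem_lev hi
    rw [hs1 i hi', hs2]
    exact hAA i hi' (c i) (hcd i hi').1

/-! ### Clusters -/

/-- the descendants of `a` are near `a` -/
theorem cluster {x : ℕ → ℝ} {N : ℕ} {C : ℝ} (hC0 : 0 ≤ C) (hC : ∀ k, N ≤ k → ∀ j < 2 ^ k,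
    |x (j + 2 ^ k) - x j| ≤ C / 2 ^ (k - N + 1)) : ∀ n, N ≤ n → ∀ i < 2 ^ n,
    |x i - x (i % 2 ^ N)| ≤ C * (1 - 1 / 2 ^ (n - N)) := by
  intro n hn
  induction n, hn using Nat.le_induction with
  | base =>
    intro i hi
    rw [Nat.mod_eq_of_lt hi]
    simp
  | succ n hn ih =>
    intro i hi
    have e1 : n + 1 - N = n - N + 1 := by omega
    rw [e1]
    have h1 : C * (1 - 1 / 2 ^ (n - N)) + C / 2 ^ (n - N + 1) = C * (1 - 1 / 2 ^ (n - N + 1)) := by
      rw [pow_succ]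
      field_simp
      ring
    have h0 : 0 ≤ C / 2 ^ (n - N + 1) := by positivity
    rcases lt_or_ge i (2 ^ n) with h | h
    · linarith [ih i h]
    · obtain ⟨j, rfl⟩ : ∃ j, i = j + 2 ^ n := ⟨i - 2 ^ n, by omega⟩
      rw [pow_succ] at hi
      have hj : j < 2 ^ n := by omega
      have h2 : (j + 2 ^ n) % 2 ^ N = j % 2 ^ N := by
        obtain ⟨k, rfl⟩ := Nat.exists_eq_add_of_le hn
        rw [pow_add, Nat.add_mul_mod_self_left]
      rw [h2]
      have h3 := abs_sub_le (x (j + 2 ^ n)) (x j) (x (j % 2 ^ N))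
      linarith [ih j hj, hC n hn j hj]

theorem card_mod {n N a : ℕ} (hN : N ≤ n) (ha : a < 2 ^ N) :
    ((Finset.range (2 ^ n)).filter fun i => i % 2 ^ N = a).card = 2 ^ (n - N) := by
  obtain ⟨k, rfl⟩ := Nat.exists_eq_add_of_le hN
  have e : N + k - N = k := by omega
  rw [e]
  have : (Finset.range (2 ^ (N + k))).filter (fun i => i % 2 ^ N = a) =
      (Finset.range (2 ^ k)).image fun j => a + 2 ^ N * j := by
    ext i
    simp only [Finset.mem_filter, Finset.mem_range, Finset.mem_image]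
    constructor
    · rintro ⟨h1, h2⟩
      refine ⟨i / 2 ^ N, ?_, ?_⟩
      · rw [Nat.div_lt_iff_lt_mul (by positivity), mul_comm, ← pow_add]
        exact h1
      · rw [← h2]
        exact Nat.mod_add_div _ _
    · rintro ⟨j, hj, rfl⟩
      refine ⟨?_, ?_⟩
      · rw [pow_add]
        have : 2 ^ N * j + 2 ^ N ≤ 2 ^ N * 2 ^ k := by
          calc 2 ^ N * j + 2 ^ N = 2 ^ N * (j + 1) := by ring
            _ ≤ 2 ^ N * 2 ^ k := Nat.mul_le_mul_left _ hj
        omega
      · rw [Nat.add_mul_mod_self_left, Nat.mod_eq_of_lt ha]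
  rw [this, Finset.card_image_of_injective, Finset.card_range]
  intro i j hij
  have h2 : 0 < 2 ^ N := by positivity
  simpa using hij

/-- the construction, with given heights -/
theorem thin_core {A : ℝ → ℝ → ℝ → (Y →L[ℂ] Y)} (hA : FactProp A) {K : Set ℝ} {P : ℝ → ℝ}
    (hne : K.Nonempty) (hK : Preperfect K) (y : ℕ → ℝ) (hy0 : ∀ N, 0 < y N)
    (hy1 : ∀ N : ℕ, (N : ℝ) ≤ (1 / 2 : ℝ) ^ N / (4 * y N))
    (hy2 : ∀ N : ℕ, P (y N) ≤ Real.exp ((1 / 2 : ℝ) ^ N / (4 * y N))) :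
    Nonempty (ThinData K P) := by
  obtain ⟨x0, hx0⟩ := hne
  obtain ⟨S, hV, hR⟩ := exists_chain (V K) (R A y)
    ⟨fun _ => (x0, 1), fun i _ => hx0, fun i _ => one_pos, fun i j hi hj _ => by
      simp at hi hj
      omega, fun i hi => by
      simp at hi
      simp [hi]⟩ fun n s hs => step hK hy0 hA n s hs
  -- coherence
  have hcoh : ∀ n k i, i < 2 ^ n → S (n + k) i = S n i := by
    intro n k i hi
    induction k with
    | zero => rfl
    | succ k ih =>
      rw [← ih, ← add_assoc]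
      exact (hR (n + k)).same i (lt_of_lt_of_le hi (Nat.pow_le_pow_right (by norm_num) (by omega)))
  set s : ℕ → ℝ × ℝ := fun i => S i i with hs
  have hlt : ∀ i : ℕ, i < 2 ^ i := fun i => Nat.lt_two_pow_self
  have hSs : ∀ n i, i < 2 ^ n → S n i = s i := by
    intro n i hi
    rcases le_total n i with h | h
    · obtain ⟨k, rfl⟩ := Nat.exists_eq_add_of_le h
      exact (hcoh n k _ hi).symm
    · obtain ⟨k, rfl⟩ := Nat.exists_eq_add_of_le h
      exact hcoh i k i (hlt i)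
  have hpow : ∀ i n : ℕ, i < 2 ^ n → i + 2 ^ n < 2 ^ (n + 1) := fun i n hi => by
    rw [pow_succ]
    omega
  have hnear_y : ∀ n, ∀ i < 2 ^ n, ∀ N ≤ n, |(s (i + 2 ^ n)).1 - (s i).1| ≤ y N / 2 ^ (n - N + 1) :=
    fun n i hi N hN => by
      have := (hR n).near_y i hi N hN
      rwa [hSs _ _ (hpow i n hi), hSs _ _ hi] at this
  have hnear : ∀ n, ∀ i < 2 ^ n, |(s (i + 2 ^ n)).1 - (s i).1| ≤ (1 / 2 : ℝ) ^ (n + 2) :=
    fun n i hi => by
      have := (hR n).near i hi
      rwa [hSs _ _ (hpow i n hi), hSs _ _ hi] at this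
  have hgap : ∀ n, ∀ i < 2 ^ n, ∀ j < 2 ^ n, ∀ l < 2 ^ n, j ≠ l →
      |(s (i + 2 ^ n)).1 - (s i).1| ≤ (1 / 2 : ℝ) ^ (n + 2) * |(s j).1 - (s l).1| :=
    fun n i hi j hj l hl hjl => by
      have := (hR n).near_gap i hi j hj l hl hjl
      rwa [hSs _ _ (hpow i n hi), hSs _ _ hi, hSs _ _ hj, hSs _ _ hl] at this
  have hinj : ∀ i j, (s i).1 = (s j).1 → i = j := fun i j hij => by
    have h1 : i < 2 ^ (i + j) := lt_of_lt_of_le Nat.lt_two_pow_self
      (Nat.pow_le_pow_right (by norm_num) (by omega))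
    have h2 : j < 2 ^ (i + j) := lt_of_lt_of_le Nat.lt_two_pow_self
      (Nat.pow_le_pow_right (by norm_num) (by omega))
    rw [← hSs _ _ h1, ← hSs _ _ h2] at hij
    exact (hV (i + j)).inj i j h1 h2 hij
  -- the parameters `e`
  have he_pos : ∀ i, 0 < (s i).2 := fun i => (hV i).pos i (hlt i)
  have he_le : ∀ i, (s i).2 ≤ (1 / 2 : ℝ) ^ i := fun i => (hV i).e_le i (hlt i)
  have hgeo : Summable fun i : ℕ => (1 / 2 : ℝ) ^ i := summable_geometric_two
  have he_sum : Summable fun i => (s i).2 :=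
    Summable.of_nonneg_of_le (fun i => (he_pos i).le) he_le hgeo
  -- the functions
  have hM : ∀ n, Mop A n (S n) = Mop A n s := fun n => Mop_congr A n _ _ fun i hi => hSs n i hi
  have hMop : ∀ n, ‖Mop A (n + 1) s - Mop A n s‖ ≤ (1 / 2 : ℝ) ^ n := fun n => by
    rw [← hM, ← hM]
    exact (hR n).close
  have hcau : CauchySeq fun n => Mop A n s rr := by
    refine cauchySeq_of_le_geometric (1 / 2) ‖(rr : Y)‖ (by norm_num) fun n => ?_
    rw [dist_comm, dist_eq_norm]
    have e : Mop A (n + 1) s rr - Mop A n s rr = (Mop A (n + 1) s - Mop A n s) rr := rfl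
    rw [e, mul_comm]
    exact (ContinuousLinearMap.le_opNorm _ _).trans
      (mul_le_mul_of_nonneg_right (hMop n) (norm_nonneg _))
  obtain ⟨f, hf⟩ := cauchySeq_tendsto_of_complete hcau
  refine ⟨⟨fun i => (s i).1, fun i => (s i).2, y, f, fun n => Mop A n s rr,
    fun i => (hV i).mem i (hlt i), fun i => ?_, he_pos, he_sum, ?_, fun N => ?_, hy0, hy1, hy2,
    fun N n hN => ?_, hf, fun n z hz hzi => ?_⟩⟩
  · -- near
    have h1 := cluster (x := fun i => (s i).1) (N := 0) (C := 1 / 2) (by norm_num)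
      (fun k _ j hj => by
        refine (hnear k j hj).trans (le_of_eq ?_)
        rw [Nat.sub_zero, pow_succ, pow_succ, pow_succ, one_div_pow]
        field_simp
        ) i (Nat.zero_le _) i (hlt i)
    simp only [pow_zero, Nat.mod_one] at h1
    have h2 : (0 : ℝ) ≤ 1 / 2 ^ (i - 0) := by positivity
    linarith
  · -- the sum
    exact (he_sum.tsum_le_tsum he_le hgeo).trans tsum_geometric_two.le
  · -- separation
    rcases Nat.eq_zero_or_pos N with rfl | hN
    · refine ⟨1, one_pos, fun n _ u => ?_⟩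
      rw [Nat.sub_zero]
      exact (Finset.card_filter_le _ _).trans (Finset.card_range _).le
    · obtain ⟨ρ, hρ0, hρ⟩ : ∃ ρ : ℝ, 0 < ρ ∧ ∀ a < 2 ^ N, ∀ b < 2 ^ N, a ≠ b →
          ρ ≤ |(s a).1 - (s b).1| / 4 := by
        have h3 : ∀ᶠ ρ in 𝓝[>] (0 : ℝ), ∀ a ∈ Finset.range (2 ^ N), ∀ b ∈ Finset.range (2 ^ N),
            a ≠ b → ρ ≤ |(s a).1 - (s b).1| / 4 := by
          refine (eventually_all_finset _).2 fun a _ => (eventually_all_finset _).2 fun b _ => ?_
          by_cases hab : a = b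
          · exact Eventually.of_forall fun δ h => absurd hab h
          · have h4 : 0 < |(s a).1 - (s b).1| := abs_pos.2 (sub_ne_zero.2 fun h =>
              hab (hinj a b h))
            exact (eventually_le (c := |(s a).1 - (s b).1| / 4) (by positivity)).mono fun δ h _ => h
        obtain ⟨ρ, h3, h4⟩ := (h3.and self_mem_nhdsWithin).exists
        exact ⟨ρ, h4, fun a ha b hb => h3 a (Finset.mem_range.2 ha) b (Finset.mem_range.2 hb)⟩
      refine ⟨ρ, hρ0, fun n hn u => ?_⟩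
      rcases Finset.eq_empty_or_nonempty
        ((Finset.range (2 ^ n)).filter fun i => |(s i).1 - u| < ρ) with he | ⟨i0, hi0⟩
      · rw [he]
        simp
      · rw [Finset.mem_filter, Finset.mem_range] at hi0
        have hb : i0 % 2 ^ N < 2 ^ N := Nat.mod_lt _ (by positivity)
        rw [← card_mod hn hb]
        refine Finset.card_le_card fun i hi => ?_
        rw [Finset.mem_filter, Finset.mem_range] at hi
        rw [Finset.mem_filter, Finset.mem_range]
        refine ⟨hi.1, ?_⟩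
        by_contra hab
        have ha : i % 2 ^ N < 2 ^ N := Nat.mod_lt _ (by positivity)
        have hG := hρ _ ha _ hb hab
        set G := |(s (i % 2 ^ N)).1 - (s (i0 % 2 ^ N)).1| with hGdef
        have hG0 : 0 ≤ G := abs_nonneg _
        have hcl := cluster (x := fun i => (s i).1) (N := N) (C := G / 4) (by positivity)
          (fun k hk j hj => by
            have h1 := hgap k j hj _ (lt_of_lt_of_le ha (Nat.pow_le_pow_right (by norm_num) hk)) _
              (lt_of_lt_of_le hb (Nat.pow_le_pow_right (by norm_num) hk)) hab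
            refine h1.trans ?_
            rw [← hGdef]
            have h2 : (1 / 2 : ℝ) ^ (k + 2) ≤ (1 / 2 : ℝ) ^ (k - N + 1 + 2) :=
              pow_le_pow_of_le_one (by norm_num) (by norm_num) (by omega)
            have h3 : (1 / 2 : ℝ) ^ (k - N + 1 + 2) * G = G / 4 / 2 ^ (k - N + 1) := by
              rw [pow_add, one_div_pow]
              field_simp
              ring
            rw [← h3]
            exact mul_le_mul_of_nonneg_right h2 hG0) n hn
        have h1 := hcl i hi.1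
        have h2 := hcl i0 hi0.1
        have h3 : (0 : ℝ) ≤ G / 4 * (1 / 2 ^ (n - N)) := by positivity
        have h4 : G ≤ |(s i).1 - (s (i % 2 ^ N)).1| + |(s i).1 - u| + |(s i0).1 - u| +
            |(s i0).1 - (s (i0 % 2 ^ N)).1| := by
          have e : (s (i % 2 ^ N)).1 - (s (i0 % 2 ^ N)).1 = -((s i).1 - (s (i % 2 ^ N)).1) +
            ((s i).1 - u) + -((s i0).1 - u) + ((s i0).1 - (s (i0 % 2 ^ N)).1) := by ring
          rw [hGdef, e]
          refine (abs_add_le _ _).trans (add_le_add ((abs_add_le _ _).trans (add_le_add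
            ((abs_add_le _ _).trans (add_le_add ?_ le_rfl)) ?_)) le_rfl)
          · rw [abs_neg]
          · rw [abs_neg]
        linarith [hi.2, hi0.2]
  · -- cardinality
    have h1 : (Finset.range (2 ^ n)).filter (fun i => i % 2 ^ N = 0) ⊆
        (Finset.range (2 ^ n)).filter (fun i => |(s i).1 - (s 0).1| ≤ y N) := by
      intro i hi
      rw [Finset.mem_filter] at hi ⊢
      refine ⟨hi.1, ?_⟩
      have h2 := cluster (x := fun i => (s i).1) (N := N) (C := y N) (hy0 N).le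
        (fun k hk j hj => hnear_y k j hj N hk) n hN i (Finset.mem_range.1 hi.1)
      simp only [hi.2] at h2
      have h3 : (0 : ℝ) ≤ y N * (1 / 2 ^ (n - N)) := by have := hy0 N; positivity
      linarith
    rw [← card_mod hN (by positivity : 0 < 2 ^ N)]
    exact Finset.card_le_card h1
  · -- multipliers
    have key : ∀ L : List ℕ, (∀ i ∈ L, z ≠ ((s i).1 : ℂ)) → chi z ((L.map fun i =>
        A (s i).1 ((1 / 2 : ℝ) ^ n) (s i).2).prod rr) =
        (L.map fun i => mult (s i).1 ((1 / 2 : ℝ) ^ n) (s i).2 z).prod * chi z rr := by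
      intro L
      induction L with
      | nil =>
        intro _
        simp
      | cons i L ih =>
        intro hL
        rw [List.map_cons, List.prod_cons, List.map_cons, List.prod_cons,
          mul_apply_eq_comp,
          (hA (s i).1 _ (s i).2 (by positivity) (he_pos i)).2.1 z hz (hL i List.mem_cons_self),
          ih fun j hj => hL j (List.mem_cons_of_mem _ hj)]
        ring
    rw [← lev_prod]
    exact key (lev n) fun i hi => hzi i (mem_lev hi)

/-- THIN -/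
theorem thin (hF : FactStmt) : ThinStmt := by
  obtain ⟨A, hA⟩ := hF
  intro K P _ hne hK hP
  -- the heights
  have hy : ∀ N : ℕ, ∃ y : ℝ, 0 < y ∧ (N : ℝ) ≤ (1 / 2 : ℝ) ^ N / (4 * y) ∧
      P y ≤ Real.exp ((1 / 2 : ℝ) ^ N / (4 * y)) := by
    intro N
    obtain ⟨y0, hy0, h⟩ := hP ((1 / 2 : ℝ) ^ N / 4) (by positivity)
    refine ⟨min y0 ((1 / 2 : ℝ) ^ N / (4 * (N + 1))), by positivity, ?_, ?_⟩
    · have h1 : min y0 ((1 / 2 : ℝ) ^ N / (4 * (N + 1))) ≤ (1 / 2 : ℝ) ^ N / (4 * (N + 1)) :=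
        min_le_right _ _
      have h2 : 0 < min y0 ((1 / 2 : ℝ) ^ N / (4 * (N + 1))) := by positivity
      rw [le_div_iff₀ (by positivity)]
      rw [le_div_iff₀ (by positivity)] at h1
      have h3 : (0 : ℝ) ≤ N := Nat.cast_nonneg N
      nlinarith
    · have h2 : 0 < min y0 ((1 / 2 : ℝ) ^ N / (4 * (N + 1))) := by positivity
      refine (h _ h2 (min_le_left _ _)).trans (le_of_eq ?_)
      congr 1
      field_simp
  choose y hy0 hy1 hy2 using hy
  exact thin_core hA hne hK y hy0 hy1 hy2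

end

end Pool.Agent.H78E.H34
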