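import Pool.Agent.Helper34_E.Thin
import Pool.Agent.Helper78_E.Stmts4

/-!
# MP_7d2497_an, module THIN2
-/

namespace Pool.Agent.H78E.H34

open MeasureTheory Filter Topology Complex

noncomputable section

/-- THIN2 -/
theorem thin2 (hF : FactStmt) : Thin2Stmt := by
  obtain ⟨A, hA⟩ := hF
  intro K P _ hne hK hP
  have hy : ∀ N : ℕ, ∃ y : ℝ, 0 < y ∧ (N : ℝ) ≤ (1 / 2 : ℝ) ^ N / (4 * y) ∧
      P y ≤ Real.exp ((1 / 2 : ℝ) ^ N / (4 * y)) := by
    intro N
    obtain ⟨y, hy0, hy1, hy2⟩ := hP ((1 / 2 : ℝ) ^ N / 4) ((1 / 2 : ℝ) ^ N / (4 * (N + 1)))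
      (by positivity) (by positivity)
    refine ⟨y, hy0, ?_, ?_⟩
    · rw [le_div_iff₀ (by positivity)]
      rw [le_div_iff₀ (by positivity)] at hy1
      have h3 : (0 : ℝ) ≤ N := Nat.cast_nonneg N
      nlinarith
    · refine hy2.trans (le_of_eq ?_)
      congr 1
      field_simp
  choose y hy0 hy1 hy2 using hy
  exact thin_core hA hne hK y hy0 hy1 hy2

end

end Pool.Agent.H78E.H34
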